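import Pool.Agent.Helper288.ConeMain

set_option autoImplicit false

namespace Pool.Agent.Results.MP_56eb46_lc.Minimality

open Pool.Agent.Helper288.Cone

/-- The cone generated by `SNeq k` is minimal with respect to bounded languages of degree `k`:
every language `L` over a finite alphabet contained in `w_0* w_1* ... w_(k-1)*` that lies in the
cone of `SNeq k` is regular or generates the same cone. -/
theorem result (k : ℕ) (hk : 2 ≤ k) (X : Type) [Fintype X] (L : Language X)
    (hb : ∃ w : Fin k → List X, ∀ v ∈ L, ∃ n : Fin k → ℕ, v = wpow w n)
    (hL : InCone (SNeq k) L) :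
    L.IsRegular ∨ ∀ (Y : Type) [Fintype Y] (N : Language Y), InCone L N ↔ InCone (SNeq k) N :=
  main hk L hb hL

end Pool.Agent.Results.MP_56eb46_lc.Minimality
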